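import Mathlib
import Pool.Agent.N647.RQ_SS

/-!
# The factor `d / φ(d)` over the differences of the elements of thick sets (helper13)
-/

set_option autoImplicit false

namespace Pool.Agent.P8H13.DS

open Finset Filter Topology
open Pool.Agent.N647.RQSS (rr hh one_le_rr one_le_hh)
open Pool.Agent.H386R2.HL (tt one_le_tt)

/-- the part of the primes `≤ y` -/
noncomputable def gg (y : ℕ) (u : ℤ) : ℝ := ∏ p ∈ (y + 1).primesBelow.filter (fun p : ℕ => (p : ℤ) ∣ u), rr p

theorem hh_split (y d : ℕ) : hh d ≤ gg y d * tt y d := by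
  classical
  unfold hh gg tt
  rw [← prod_filter_mul_prod_filter_not d.primeFactors (fun p => y < p), mul_comm]
  have e : ∏ p ∈ d.primeFactors.filter (fun p => y < p), rr p =
      ∏ p ∈ d.primeFactors.filter (fun p => y < p), (1 - 1 / (p : ℝ))⁻¹ := rfl
  rw [e]
  refine mul_le_mul_of_nonneg_right ?_ (prod_nonneg fun p hp => ?_)
  · refine prod_le_prod_of_subset_of_one_le ?_ ?_ ?_
    · intro p hp
      rw [mem_filter, Nat.mem_primeFactors] at hp
      rw [mem_filter, Nat.mem_primesBelow]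
      exact ⟨⟨by omega, hp.1.1⟩, by exact_mod_cast hp.1.2.1⟩
    · intro p hp
      rw [mem_filter, Nat.mem_primeFactors] at hp
      exact zero_le_one.trans (one_le_rr hp.1.1)
    · intro p hp _
      rw [mem_filter, Nat.mem_primesBelow] at hp
      exact one_le_rr hp.1.2
  · rw [mem_filter, Nat.mem_primeFactors] at hp
    exact zero_le_one.trans (one_le_rr hp.1.1)

theorem rr_eq {p : ℕ} (hp : 2 ≤ p) : rr p = 1 + 1 / ((p : ℝ) - 1) := by
  unfold rr
  have h : (2 : ℝ) ≤ p := by exact_mod_cast hp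
  have h1 : (p : ℝ) - 1 ≠ 0 := by linarith
  have h2 : (p : ℝ) ≠ 0 := by linarith
  have h3 : 1 - 1 / (p : ℝ) = (p - 1) / p := by field_simp
  rw [h3, inv_div]
  field_simp
  ring

/-- multiples in an interval -/
theorem cnt_mult (a l m : ℕ) (v : ℤ) :
    (((Ico a (a + l)).filter (fun w : ℕ => (m : ℤ) ∣ (w : ℤ) - v)).card : ℝ) ≤ (l : ℝ) / m + 1 := by
  have h1 : ((Ico a (a + l)).filter (fun w : ℕ => (m : ℤ) ∣ (w : ℤ) - v)).card ≤ (range (l / m + 1)).card := by
    apply card_le_card_of_injOn (fun w => (w - a) / m)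
    · intro w hw
      rw [mem_coe, mem_filter, mem_Ico] at hw
      rw [mem_coe, mem_range, Nat.lt_succ_iff]
      exact Nat.div_le_div_right (by omega)
    · intro w hw w' hw' h
      rw [mem_coe, mem_filter, mem_Ico] at hw hw'
      have h2 : (w - a) / m = (w' - a) / m := h
      have h3 : (m : ℤ) ∣ (w : ℤ) - w' := by
        have := dvd_sub hw.2 hw'.2
        have e : (w : ℤ) - v - ((w' : ℤ) - v) = (w : ℤ) - w' := by ring
        rwa [e] at this
      have h4 : ((w - a : ℕ) : ℤ) % m = ((w' - a : ℕ) : ℤ) % m := by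
        apply Int.emod_emod_of_dvd _ (dvd_refl _) |>.symm.trans
        rw [Int.emod_emod_of_dvd _ (dvd_refl _)]
        apply Int.emod_eq_emod_iff_emod_sub_eq_zero.2
        apply Int.emod_eq_zero_of_dvd
        have e : ((w - a : ℕ) : ℤ) - ((w' - a : ℕ) : ℤ) = (w : ℤ) - w' := by omega
        rw [e]
        exact h3
      have h5 : (w - a) % m = (w' - a) % m := by exact_mod_cast h4
      have h6 := Nat.div_add_mod (w - a) m
      have h7 := Nat.div_add_mod (w' - a) m
      rw [h2, h5] at h6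
      omega
  rw [card_range] at h1
  have h2 : (((Ico a (a + l)).filter (fun w : ℕ => (m : ℤ) ∣ (w : ℤ) - v)).card : ℝ) ≤ ((l / m + 1 : ℕ) : ℝ) := by
    exact_mod_cast h1
  refine h2.trans ?_
  push_cast
  have : ((l / m : ℕ) : ℝ) ≤ (l : ℝ) / m := Nat.cast_div_le
  linarith

theorem gg_le (y : ℕ) (u : ℤ) : gg y u ≤
    ∑ S ∈ (y + 1).primesBelow.powerset, if ((∏ p ∈ S, p : ℕ) : ℤ) ∣ u then ∏ p ∈ S, (rr p - 1) else 0 := by
  classical
  have hP : ∀ p ∈ (y + 1).primesBelow, p.Prime := fun p hp => Nat.prime_of_mem_primesBelow hp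
  have h1 : gg y u = ∏ p ∈ (y + 1).primesBelow, (1 + if (p : ℤ) ∣ u then rr p - 1 else 0) := by
    unfold gg
    rw [prod_filter]
    refine prod_congr rfl fun p _ => ?_
    split_ifs <;> ring
  rw [h1, prod_one_add]
  refine sum_le_sum fun S hS => ?_
  rw [mem_powerset] at hS
  by_cases h : ∀ p ∈ S, (p : ℤ) ∣ u
  · rw [if_pos]
    · refine le_of_eq (prod_congr rfl fun p hp => ?_)
      rw [if_pos (h p hp)]
    · rw [Int.natCast_dvd]
      apply prod_primes_dvd
      · intro p hp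
        exact (hP p (hS hp)).prime
      · intro p hp
        exact Int.natCast_dvd.1 (h p hp)
  · push Not at h
    obtain ⟨p, hp, hpu⟩ := h
    rw [prod_eq_zero hp (by rw [if_neg hpu])]
    split_ifs
    · exact prod_nonneg fun q hq => by
        have := one_le_rr (hP q (hS hq))
        linarith
    · exact le_rfl

theorem prod_rr (y : ℕ) (hy : 1 ≤ y) : ∏ p ∈ (y + 1).primesBelow, rr p ≤ y := by
  induction y, hy using Nat.le_induction with
  | base =>
    have : (1 + 1).primesBelow = ∅ := by decide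
    rw [this]
    simp
  | succ y hy ih =>
    rw [Nat.primesBelow_succ]
    have hy0 : (0 : ℝ) < y := by exact_mod_cast hy
    split_ifs with h
    · rw [prod_insert (Nat.notMem_primesBelow _), rr_eq h.two_le]
      have h1 : 1 + 1 / (((y + 1 : ℕ) : ℝ) - 1) = (y + 1) / y := by
        push_cast
        rw [add_sub_cancel_right]
        field_simp
      rw [h1]
      calc ((y : ℝ) + 1) / y * ∏ p ∈ (y + 1).primesBelow, rr p ≤ ((y : ℝ) + 1) / y * y :=
            mul_le_mul_of_nonneg_left ih (by positivity)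
        _ = ((y + 1 : ℕ) : ℝ) := by
            push_cast
            field_simp
    · refine ih.trans ?_
      push_cast
      linarith

theorem sum_gg : ∃ C : ℝ, 0 < C ∧ ∀ y : ℕ, 1 ≤ y → ∀ (a l : ℕ) (v : ℤ),
    ∑ w ∈ Ico a (a + l), gg y ((w : ℤ) - v) ≤ C * l + y := by
  classical
  refine ⟨Real.exp (2 * ∑' n : ℕ, 1 / (n : ℝ) ^ 2), Real.exp_pos _, fun y hy a l v => ?_⟩
  have hP : ∀ p ∈ (y + 1).primesBelow, p.Prime := fun p hp => Nat.prime_of_mem_primesBelow hp
  have hc0 : ∀ p ∈ (y + 1).primesBelow, 0 ≤ rr p - 1 := fun p hp => by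
    have := one_le_rr (hP p hp)
    linarith
  refine (sum_le_sum (s := Ico a (a + l)) (fun (w : ℕ) _ => gg_le y ((w : ℤ) - v))).trans ?_
  rw [sum_comm]
  have h1 : ∀ S ∈ (y + 1).primesBelow.powerset,
      ∑ w ∈ Ico a (a + l), (if ((∏ p ∈ S, p : ℕ) : ℤ) ∣ (w : ℤ) - v then ∏ p ∈ S, (rr p - 1) else 0) ≤
        l * ∏ p ∈ S, ((rr p - 1) / p) + ∏ p ∈ S, (rr p - 1) := by
    intro S hS
    rw [mem_powerset] at hS
    rw [← sum_filter, sum_const, nsmul_eq_mul]
    have h2 := cnt_mult a l (∏ p ∈ S, p) v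
    have h3 : 0 ≤ ∏ p ∈ S, (rr p - 1) := prod_nonneg fun p hp => hc0 p (hS hp)
    refine (mul_le_mul_of_nonneg_right h2 h3).trans (le_of_eq ?_)
    rw [prod_div_distrib]
    push_cast
    ring
  refine (sum_le_sum h1).trans ?_
  rw [sum_add_distrib, ← mul_sum, ← prod_one_add, ← prod_one_add]
  have h2 : ∏ p ∈ (y + 1).primesBelow, (1 + (rr p - 1)) ≤ y := by
    refine le_trans (le_of_eq (prod_congr rfl fun p _ => ?_)) (prod_rr y hy)
    ring
  have h3 : ∏ p ∈ (y + 1).primesBelow, (1 + (rr p - 1) / (p : ℝ)) ≤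
      Real.exp (2 * ∑' n : ℕ, 1 / (n : ℝ) ^ 2) := by
    have h4 : ∏ p ∈ (y + 1).primesBelow, (1 + (rr p - 1) / (p : ℝ)) ≤
        ∏ p ∈ (y + 1).primesBelow, Real.exp (2 * (1 / (p : ℝ) ^ 2)) := by
      refine prod_le_prod (fun p hp => ?_) fun p hp => ?_
      · have := hc0 p hp
        positivity
      · have hp2 : (2 : ℝ) ≤ p := by exact_mod_cast (hP p hp).two_le
        have h5 : (rr p - 1) / (p : ℝ) ≤ 2 * (1 / (p : ℝ) ^ 2) := by
          rw [rr_eq (hP p hp).two_le, add_sub_cancel_left, div_div, ← mul_div_assoc, mul_one,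
            div_le_div_iff₀ (by nlinarith) (by positivity)]
          nlinarith
        have := Real.add_one_le_exp (2 * (1 / (p : ℝ) ^ 2))
        linarith
    refine h4.trans ?_
    rw [← Real.exp_sum]
    apply Real.exp_le_exp.2
    rw [← mul_sum]
    exact mul_le_mul_of_nonneg_left (Pool.Agent.N647.RQSS.sum_sq_le 0 _) (by norm_num)
  have hl : (0 : ℝ) ≤ l := Nat.cast_nonneg _
  nlinarith [mul_le_mul_of_nonneg_left h3 hl]

end Pool.Agent.P8H13.DS
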