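import Mathlib
import Pool.Agent.P8H13.DS.Int
import Pool.Agent.N646.TP.Nat

/-!
# The singular series of most tuples of elements of thick sets is bounded (helper13)
-/

set_option autoImplicit false

namespace Pool.Agent.P8H13.DS

open Finset Filter Topology
open Pool.Agent.N647.RQSS (rr hh one_le_rr one_le_hh prs CT_tuple)
open Pool.Agent.H386R2.HL (tt one_le_tt)
open Pool.Agent.H387R2.Uni (CT tt_le)

theorem gg_dist (y v w : ℕ) : gg y (Nat.dist v w) = gg y ((w : ℤ) - v) := by
  unfold gg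
  congr 1
  apply filter_congr
  intro p _
  rcases le_total v w with h | h
  · rw [Nat.dist_eq_sub_of_le h, Nat.cast_sub h]
  · rw [Nat.dist_eq_sub_of_le_right h, Nat.cast_sub h, ← dvd_neg, neg_sub]

theorem gg_nonneg (y : ℕ) (u : ℤ) : 0 ≤ gg y u := by
  unfold gg
  refine prod_nonneg fun p hp => ?_
  rw [mem_filter, Nat.mem_primesBelow] at hp
  exact zero_le_one.trans (one_le_rr hp.1.2)

open Classical in
/-- few elements of an interval have a difference to `v` with a large factor `hh` -/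
theorem cell (lam : ℝ) (hlam : 0 < lam) : ∃ C : ℝ, 0 < C ∧ ∀ᶠ x : ℕ in atTop, ∀ l : ℕ, lam * Real.log x ≤ 2 * l →
    ∀ v ≤ x, ∀ a : ℕ, ∀ A : ℝ, 0 < A →
    (((Ico a (a + l)).filter (fun w : ℕ => w ≤ x ∧ w ≠ v ∧ A < hh (Nat.dist w v))).card : ℝ) ≤ C / A * l := by
  obtain ⟨C₀, hC₀, hsum⟩ := sum_gg
  refine ⟨Real.exp 2 * (C₀ + 8 / lam), by positivity, ?_⟩
  have hlog : Tendsto (fun x : ℕ => Real.log (x : ℝ)) atTop atTop :=
    Real.tendsto_log_atTop.comp tendsto_natCast_atTop_atTop
  filter_upwards [hlog.eventually_ge_atTop 1, eventually_ge_atTop 1] with x hx1 hx0 l hl v hv a A hA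
  have hxR : (1 : ℝ) ≤ x := by exact_mod_cast hx0
  obtain ⟨y, hy⟩ : ∃ y : ℕ, y = ⌊Real.log x⌋₊ + 3 := ⟨_, rfl⟩
  have hy3 : 3 ≤ y := by omega
  have hy3R : (3 : ℝ) ≤ y := by exact_mod_cast hy3
  have hyl : Real.log x ≤ y := by
    have := Nat.lt_floor_add_one (Real.log (x : ℝ))
    rw [hy]
    push_cast
    linarith
  have hyu : (y : ℝ) ≤ 4 * Real.log x := by
    have := Nat.floor_le (zero_le_one.trans hx1)
    rw [hy]
    push_cast
    linarith
  have hlogy : 1 ≤ Real.log y := by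
    rw [Real.le_log_iff_exp_le (by linarith)]
    have := Real.exp_one_lt_d9
    linarith
  have htt : ∀ d : ℕ, 1 ≤ d → d ≤ x → tt y d ≤ Real.exp 2 := by
    intro d hd1 hd2
    refine (tt_le y d (by omega) hd1).trans (Real.exp_le_exp.2 ?_)
    rw [div_le_iff₀ (by positivity)]
    have h1 : Real.log d ≤ Real.log x := Real.log_le_log (by exact_mod_cast hd1) (by exact_mod_cast hd2)
    nlinarith
  have h1 : (((Ico a (a + l)).filter (fun w : ℕ => w ≤ x ∧ w ≠ v ∧ A < hh (Nat.dist w v))).card : ℝ) * A ≤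
      Real.exp 2 * (C₀ * l + y) := by
    rw [← nsmul_eq_mul]
    refine (card_nsmul_le_sum _ (fun w : ℕ => Real.exp 2 * gg y ((w : ℤ) - v)) _ ?_).trans ?_
    · intro w hw
      rw [mem_filter] at hw
      obtain ⟨-, hw1, hw2, hw3⟩ := hw
      have hd1 : 1 ≤ Nat.dist w v := by
        rcases Nat.eq_zero_or_pos (Nat.dist w v) with h | h
        · exact absurd (Nat.eq_of_dist_eq_zero h) hw2
        · exact h
      have hd2 : Nat.dist w v ≤ x := by
        unfold Nat.dist
        omega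
      have h2 := hh_split y (Nat.dist w v)
      have h3 := htt _ hd1 hd2
      have h4 := gg_nonneg y (Nat.dist w v : ℕ)
      have h5 : gg y (Nat.dist w v : ℕ) = gg y ((w : ℤ) - v) := by
        rw [Nat.dist_comm, gg_dist]
      rw [h5] at h2 h4
      have h6 := mul_le_mul_of_nonneg_left h3 h4
      linarith
    · refine (sum_le_sum_of_subset_of_nonneg (filter_subset _ _) fun w _ _ =>
        mul_nonneg (Real.exp_pos _).le (gg_nonneg _ _)).trans ?_
      rw [← mul_sum]
      exact mul_le_mul_of_nonneg_left (hsum y (by omega) a l v) (Real.exp_pos _).le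
  have h2 : (y : ℝ) ≤ 8 / lam * l := by
    rw [div_mul_eq_mul_div, le_div_iff₀ hlam]
    nlinarith
  rw [div_mul_eq_mul_div, le_div_iff₀ hA]
  refine h1.trans ?_
  have h3 := (Real.exp_pos 2).le
  calc Real.exp 2 * (C₀ * l + y) ≤ Real.exp 2 * (C₀ * l + 8 / lam * l) :=
        mul_le_mul_of_nonneg_left (by linarith) h3
    _ = _ := by ring

open Classical in
theorem count_pair (k : ℕ) (A : Finset ℕ) (N : ℕ) (i j : Fin (k + 1)) (hij : i ≠ j) (P : ℕ → ℕ → Prop)
    (hN : ∀ b ∈ A, (A.filter (fun a => P a b)).card ≤ N) :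
    ((Fintype.piFinset (fun _ : Fin (k + 1) => A)).filter (fun F => P (F i) (F j))).card ≤ N * A.card ^ k := by
  obtain ⟨j', hj'⟩ := Fin.exists_succAbove_eq (Ne.symm hij)
  have hT : (Fintype.piFinset (fun _ : Fin k => A)).card = A.card ^ k := by
    rw [Fintype.card_piFinset]
    simp
  rw [← hT]
  refine Finset.card_le_mul_card_image_of_maps_to (f := fun F : Fin (k + 1) → ℕ =>
    fun l : Fin k => F (i.succAbove l)) ?_ _ ?_
  · intro F hF
    rw [Finset.mem_filter, Fintype.mem_piFinset] at hF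
    rw [Fintype.mem_piFinset]
    exact fun l => hF.1 _
  · intro G hG
    rw [Fintype.mem_piFinset] at hG
    refine le_trans ?_ (hN (G j') (hG j'))
    refine Finset.card_le_card_of_injOn (fun F => F i) ?_ ?_
    · intro F hF
      have hF' := Finset.mem_filter.1 hF
      have hF1 := Finset.mem_filter.1 hF'.1
      have e : F j = G j' := by
        rw [← hF'.2]
        change F j = F (i.succAbove j')
        rw [hj']
      rw [Finset.mem_coe, Finset.mem_filter]
      refine ⟨(Fintype.mem_piFinset.1 hF1.1) i, ?_⟩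
      rw [← e]
      exact hF1.2
    · intro F hF F' hF' h
      have hF1 := (Finset.mem_filter.1 hF).2
      have hF2 := (Finset.mem_filter.1 hF').2
      funext l
      by_cases hl : l = i
      · rw [hl]
        exact h
      · obtain ⟨l', rfl⟩ := Fin.exists_succAbove_eq hl
        have e1 := congrFun hF1 l'
        have e2 := congrFun hF2 l'
        exact e1.trans e2.symm

open Classical in
/-- a set of shifts is covered by few cells -/
theorem cells (V : Finset ℕ) (L : ℝ) (l : ℕ) (hl : 1 ≤ l) (hlL : (l : ℝ) ≤ L) :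
    ((V.image (fun v => v / l)).card * l : ℕ) ≤ Pool.Agent.N646.TP.near V L := by
  obtain ⟨J, hJ⟩ : ∃ J, J = V.image (fun v => v / l) := ⟨_, rfl⟩
  rw [← hJ]
  have h1 : J.card * l = (J ×ˢ range l).card := by rw [card_product, card_range]
  rw [h1]
  unfold Pool.Agent.N646.TP.near
  rw [Set.ncard_eq_toFinset_card _ (Pool.Agent.N646.TP.near_finite V L)]
  apply card_le_card_of_injOn (fun z : ℕ × ℕ => z.1 * l + z.2)
  · rintro ⟨j, t⟩ hz
    rw [mem_coe, mem_product] at hz
    obtain ⟨hj, ht⟩ := hz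
    dsimp only at hj ht
    rw [hJ] at hj
    obtain ⟨v, hv, hvj⟩ := mem_image.1 hj
    rw [mem_range] at ht
    rw [mem_coe, Set.Finite.mem_toFinset]
    refine ⟨v, hv, ?_⟩
    have h2 := Nat.div_add_mod v l
    have h3 := Nat.mod_lt v (by omega : 0 < l)
    have hvj' : v / l = j := hvj
    rw [hvj'] at h2
    have h4 : (v : ℝ) = j * l + (v % l : ℕ) := by
      have : v = j * l + v % l := by rw [Nat.mul_comm]; exact h2.symm
      exact_mod_cast this
    have h5 : ((v % l : ℕ) : ℝ) < l := by exact_mod_cast h3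
    have h6 : (t : ℝ) < l := by exact_mod_cast ht
    have h7 : (0 : ℝ) ≤ ((v % l : ℕ) : ℝ) := Nat.cast_nonneg _
    have h8 : (0 : ℝ) ≤ t := Nat.cast_nonneg _
    show |((j * l + t : ℕ) : ℝ) - v| ≤ L
    rw [h4, abs_le]
    push_cast at *
    constructor <;> linarith
  · rintro ⟨j, t⟩ hz ⟨j', t'⟩ hz' h
    rw [mem_coe, mem_product] at hz hz'
    have ht := mem_range.1 hz.2
    have ht' := mem_range.1 hz'.2
    dsimp only at ht ht'
    have h2 : j * l + t = j' * l + t' := h
    have hl0 : 0 < l := by omega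
    have h3 : j = j' := by
      have e1 : (j * l + t) / l = j := by
        rw [Nat.mul_comm, Nat.mul_add_div hl0, Nat.div_eq_of_lt ht, Nat.add_zero]
      have e2 : (j' * l + t') / l = j' := by
        rw [Nat.mul_comm, Nat.mul_add_div hl0, Nat.div_eq_of_lt ht', Nat.add_zero]
      rw [← e1, ← e2, h2]
    subst h3
    have h4 : t = t' := by omega
    rw [h4]

open Classical in
/-- **the singular series of most tuples of elements of a thick set is bounded** -/
theorem few (k : ℕ) (θ lam c δ : ℝ) (hθ : 0 < θ) (hlam : 0 < lam) (hc : 0 < c) (hδ : 0 < δ) :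
    ∃ A₀ : ℝ, 0 < A₀ ∧ ∀ᶠ x : ℕ in atTop, ∀ V ⊆ range (x + 1),
      θ * Pool.Agent.N646.TP.near V (lam * Real.log x) ≤ V.card → ∀ A ⊆ V, c * V.card ≤ A.card →
      (((Fintype.piFinset (fun _ : Fin (k + 1) => A)).filter (fun y => Function.Injective y ∧
        A₀ < CT (univ.image y))).card : ℝ) ≤ δ * (A.card : ℝ) ^ (k + 1) := by
  obtain ⟨C, hC, hcell⟩ := cell lam hlam
  obtain ⟨m, hm⟩ : ∃ m : ℕ, m = (prs k).card := ⟨_, rfl⟩
  obtain ⟨A', hA'⟩ : ∃ A' : ℝ, A' = max 1 (m * C / (θ * c * δ)) := ⟨_, rfl⟩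
  have hA1 : 1 ≤ A' := by rw [hA']; exact le_max_left _ _
  have hA2 : m * C ≤ A' * (θ * c * δ) := by
    have : m * C / (θ * c * δ) ≤ A' := by rw [hA']; exact le_max_right _ _
    rwa [div_le_iff₀ (by positivity)] at this
  have hA0 : 0 < A' := by linarith
  refine ⟨(A' ^ (k + 1)) ^ m, by positivity, ?_⟩
  have hlog : Tendsto (fun x : ℕ => lam * Real.log (x : ℝ)) atTop atTop :=
    (Real.tendsto_log_atTop.comp tendsto_natCast_atTop_atTop).const_mul_atTop hlam
  filter_upwards [hcell, hlog.eventually_ge_atTop 1] with x hx hx1 V hV hVθ A hAV hAc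
  obtain ⟨l, hl⟩ : ∃ l : ℕ, l = ⌊lam * Real.log x⌋₊ := ⟨_, rfl⟩
  have hl1 : 1 ≤ l := by rw [hl]; exact Nat.le_floor (by exact_mod_cast hx1)
  have hlL : (l : ℝ) ≤ lam * Real.log x := by rw [hl]; exact Nat.floor_le (by linarith)
  have hlL2 : lam * Real.log x ≤ 2 * l := by
    have h1 := Nat.lt_floor_add_one (lam * Real.log (x : ℝ))
    rw [← hl] at h1
    have h2 : (1 : ℝ) ≤ l := by exact_mod_cast hl1
    linarith
  have hJ := cells V (lam * Real.log x) l hl1 hlL
  obtain ⟨J, hJd⟩ : ∃ J, J = V.image (fun v => v / l) := ⟨_, rfl⟩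
  rw [← hJd] at hJ
  have hJR : (J.card : ℝ) * l ≤ Pool.Agent.N646.TP.near V (lam * Real.log x) := by exact_mod_cast hJ
  have hJA : C / A' * (J.card * l) ≤ C / (A' * (θ * c)) * A.card := by
    have h1 : θ * c * (J.card * l) ≤ A.card := by
      calc θ * c * ((J.card : ℝ) * l) = c * (θ * ((J.card : ℝ) * l)) := by ring
        _ ≤ c * V.card := mul_le_mul_of_nonneg_left
            ((mul_le_mul_of_nonneg_left hJR hθ.le).trans hVθ) hc.le
        _ ≤ _ := hAc
    have e : C / A' * ((J.card : ℝ) * l) = C / (A' * (θ * c)) * (θ * c * (J.card * l)) := by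
      field_simp
    rw [e]
    exact mul_le_mul_of_nonneg_left h1 (by positivity)
  have hone : ∀ b ∈ A, (A.filter (fun a => a ≠ b ∧ A' < hh (Nat.dist a b))).card ≤
      ⌊C / (A' * (θ * c)) * A.card⌋₊ := by
    intro b hb
    apply Nat.le_floor
    refine le_trans ?_ hJA
    have hbx : b ≤ x := by
      have := mem_range.1 (hV (hAV hb))
      omega
    have hsub : A.filter (fun a => a ≠ b ∧ A' < hh (Nat.dist a b)) ⊆
        J.biUnion (fun j => (Ico (j * l) (j * l + l)).filter
          (fun w : ℕ => w ≤ x ∧ w ≠ b ∧ A' < hh (Nat.dist w b))) := by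
      intro a ha
      rw [mem_filter] at ha
      have hax : a ≤ x := by
        have := mem_range.1 (hV (hAV ha.1))
        omega
      rw [mem_biUnion]
      refine ⟨a / l, by rw [hJd]; exact mem_image.2 ⟨a, hAV ha.1, rfl⟩, ?_⟩
      rw [mem_filter, mem_Ico]
      refine ⟨⟨Nat.div_mul_le_self a l, ?_⟩, hax, ha.2⟩
      have h1 := Nat.div_add_mod a l
      have h2 := Nat.mod_lt a (by omega : 0 < l)
      have h3 : a / l * l = l * (a / l) := Nat.mul_comm _ _
      omega
    have h1 := (card_le_card hsub).trans card_biUnion_le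
    have h2 : ((A.filter (fun a => a ≠ b ∧ A' < hh (Nat.dist a b))).card : ℝ) ≤
        ∑ j ∈ J, (((Ico (j * l) (j * l + l)).filter
          (fun w : ℕ => w ≤ x ∧ w ≠ b ∧ A' < hh (Nat.dist w b))).card : ℝ) := by exact_mod_cast h1
    refine h2.trans ((sum_le_sum fun j _ => hx l hlL2 b hbx (j * l) A' hA0).trans (le_of_eq ?_))
    rw [sum_const, nsmul_eq_mul]
    ring
  obtain ⟨Q, hQ⟩ : ∃ Q : ℕ → ℕ → Prop, ∀ a b, Q a b ↔ (a ≠ b ∧ A' < hh (Nat.dist a b)) := ⟨_, fun _ _ => Iff.rfl⟩
  have hone' : ∀ b ∈ A, (A.filter (fun a => Q a b)).card ≤ ⌊C / (A' * (θ * c)) * A.card⌋₊ := by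
    intro b hb
    refine le_trans (card_le_card fun a ha => ?_) (hone b hb)
    rw [mem_filter] at ha ⊢
    exact ⟨ha.1, (hQ a b).1 ha.2⟩
  have hsub : (Fintype.piFinset (fun _ : Fin (k + 1) => A)).filter (fun y => Function.Injective y ∧
        (A' ^ (k + 1)) ^ m < CT (univ.image y)) ⊆
      (prs k).biUnion fun z => (Fintype.piFinset (fun _ : Fin (k + 1) => A)).filter
        (fun F => Q (F z.1) (F z.2)) := by
    intro F hF
    obtain ⟨h1, h2, h3⟩ := mem_filter.1 hF
    rw [mem_biUnion]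
    by_contra hcon
    push Not at hcon
    have h4 := CT_tuple k 1 le_rfl F h2 (A' ^ (k + 1)) (one_le_pow₀ hA1) (by
      intro z hz
      refine pow_le_pow_left₀ (zero_le_one.trans (one_le_hh _)) ?_ _
      by_contra h5
      apply hcon z hz
      rw [mem_filter, hQ]
      exact ⟨h1, fun h6 => (mem_filter.1 hz).2 (h2 h6), not_le.1 h5⟩)
    rw [← hm] at h4
    have h5 : hh 1 = 1 := by
      unfold hh
      simp
    rw [h5, one_pow, one_mul] at h4
    have h6 : (univ.image (fun i => 1 * F i)) = univ.image F := by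
      congr 1
      funext i
      exact one_mul _
    rw [h6] at h4
    exact absurd h3 (not_lt.2 h4)
  have hcard := (card_le_card hsub).trans card_biUnion_le
  have hsum : ∑ z ∈ prs k, ((Fintype.piFinset (fun _ : Fin (k + 1) => A)).filter
        (fun F => Q (F z.1) (F z.2))).card ≤
      ∑ _z ∈ prs k, ⌊C / (A' * (θ * c)) * A.card⌋₊ * A.card ^ k :=
    sum_le_sum fun z hz => count_pair k A _ z.1 z.2 (mem_filter.1 hz).2 Q hone'
  rw [sum_const, smul_eq_mul, ← hm] at hsum
  have hfin : (((Fintype.piFinset (fun _ : Fin (k + 1) => A)).filter (fun y => Function.Injective y ∧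
      (A' ^ (k + 1)) ^ m < CT (univ.image y))).card : ℝ) ≤
      m * (⌊C / (A' * (θ * c)) * A.card⌋₊ * (A.card : ℝ) ^ k) := by exact_mod_cast hcard.trans hsum
  refine hfin.trans ?_
  have h1 : ((⌊C / (A' * (θ * c)) * A.card⌋₊ : ℕ) : ℝ) ≤ C / (A' * (θ * c)) * A.card :=
    Nat.floor_le (by positivity)
  have h2 : (m : ℝ) * (C / (A' * (θ * c))) ≤ δ := by
    rw [← mul_div_assoc, div_le_iff₀ (by positivity)]
    linarith
  have h3 : (0 : ℝ) ≤ (A.card : ℝ) ^ k := by positivity
  calc (m : ℝ) * (⌊C / (A' * (θ * c)) * A.card⌋₊ * (A.card : ℝ) ^ k)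
      ≤ m * (C / (A' * (θ * c)) * A.card * (A.card : ℝ) ^ k) :=
        mul_le_mul_of_nonneg_left (mul_le_mul_of_nonneg_right h1 h3) (Nat.cast_nonneg _)
    _ = (m * (C / (A' * (θ * c)))) * (A.card : ℝ) ^ (k + 1) := by
        rw [pow_succ]
        ring
    _ ≤ _ := mul_le_mul_of_nonneg_right h2 (by positivity)

end Pool.Agent.P8H13.DS
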