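import Mathlib
import Pool.Agent.P8H13.DS.Thk

/-!
# The singular series of all subsets of most sets in an interval is bounded (helper13)
-/

set_option autoImplicit false

namespace Pool.Agent.P8H13.DS

open Finset Filter Topology
open Pool.Agent.H387R2.Uni (CT)

theorem near_Icc (Y : ℕ) (L : ℝ) (hLY : L ≤ Y) :
    Pool.Agent.N646.TP.near (Icc 1 Y) L ≤ 2 * Y + 1 := by
  unfold Pool.Agent.N646.TP.near
  have h1 : {m : ℕ | ∃ v ∈ Icc 1 Y, |(m : ℝ) - v| ≤ L} ⊆ ((range (2 * Y + 1) : Finset ℕ) : Set ℕ) := by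
    rintro m ⟨v, hv, h⟩
    rw [mem_coe, mem_range]
    rw [mem_Icc] at hv
    have h2 := (abs_le.1 h).2
    have h3 : (v : ℝ) ≤ Y := by exact_mod_cast hv.2
    have h4 : (m : ℝ) ≤ ((2 * Y : ℕ) : ℝ) := by
      push_cast
      linarith
    have h5 : m ≤ 2 * Y := by exact_mod_cast h4
    omega
  have h2 := Set.ncard_le_ncard h1 (finite_toSet _)
  rwa [Set.ncard_coe_finset, card_range] at h2

open Classical in
/-- few sets of `T` shifts in `[1, Y]` have a subset of `k + 1` elements with a large singular series -/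
theorem few_sets (k T : ℕ) (lam δ : ℝ) (hlam : 0 < lam) (hδ : 0 < δ) :
    ∃ A₀ : ℝ, 0 < A₀ ∧ ∀ᶠ x : ℕ in atTop, ∀ Y : ℕ, lam * Real.log x ≤ Y → 100 * Y ≤ x →
      ((((Icc 1 Y).powersetCard T).filter (fun H => ∃ G ⊆ H, G.card = k + 1 ∧ A₀ < CT G)).card : ℝ) ≤
        δ * (Y : ℝ) ^ T := by
  obtain ⟨A₀, hA₀, h⟩ := few k (1 / 3) lam 1 δ (by norm_num) hlam one_pos hδ
  refine ⟨A₀, hA₀, ?_⟩
  have hlog : Tendsto (fun x : ℕ => lam * Real.log (x : ℝ)) atTop atTop :=
    (Real.tendsto_log_atTop.comp tendsto_natCast_atTop_atTop).const_mul_atTop hlam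
  filter_upwards [h, hlog.eventually_ge_atTop 1] with x hx hx1 Y hY1 hY2
  have hYR : (1 : ℝ) ≤ Y := hx1.trans hY1
  have hY : 1 ≤ Y := by exact_mod_cast hYR
  have hV : Icc 1 Y ⊆ range (x + 1) := by
    intro v hv
    rw [mem_Icc] at hv
    rw [mem_range]
    omega
  have hcY : ((Icc 1 Y).card : ℝ) = Y := by rw [Nat.card_Icc, Nat.add_sub_cancel]
  have hnear := near_Icc Y (lam * Real.log x) hY1
  have h1 := hx (Icc 1 Y) hV (by
    rw [hcY]
    have : (Pool.Agent.N646.TP.near (Icc 1 Y) (lam * Real.log x) : ℝ) ≤ 2 * Y + 1 := by exact_mod_cast hnear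
    linarith) (Icc 1 Y) (Subset.refl _) (by rw [one_mul])
  rw [hcY] at h1
  obtain ⟨Bt, hBt⟩ : ∃ Bt : Finset (Fin (k + 1) → ℕ), Bt = (Fintype.piFinset (fun _ : Fin (k + 1) => Icc 1 Y)).filter
    (fun y => Function.Injective y ∧ A₀ < CT (univ.image y)) := ⟨_, rfl⟩
  rw [← hBt] at h1
  obtain ⟨Gs, hGs⟩ : ∃ Gs : Finset (Finset ℕ), Gs = ((Icc 1 Y).powersetCard (k + 1)).filter (fun G => A₀ < CT G) :=
    ⟨_, rfl⟩
  have hGc : Gs.card ≤ Bt.card := by
    apply card_le_card_of_surjOn (fun y => univ.image y)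
    intro G hG
    rw [hGs, mem_coe, mem_filter, mem_powersetCard] at hG
    obtain ⟨⟨hG1, hG2⟩, hG3⟩ := hG
    have himg : univ.image (fun i => G.orderEmbOfFin hG2 i) = G := by
      ext v
      rw [mem_image]
      constructor
      · rintro ⟨i, -, rfl⟩
        exact orderEmbOfFin_mem G hG2 i
      · intro hv
        have : v ∈ Set.range (G.orderEmbOfFin hG2) := by
          rw [range_orderEmbOfFin]
          exact hv
        obtain ⟨i, hi⟩ := this
        exact ⟨i, mem_univ _, hi⟩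
    refine ⟨fun i => G.orderEmbOfFin hG2 i, ?_, himg⟩
    rw [hBt, mem_coe, mem_filter, Fintype.mem_piFinset]
    refine ⟨fun i => hG1 (orderEmbOfFin_mem G hG2 i), (G.orderEmbOfFin hG2).injective, ?_⟩
    rw [himg]
    exact hG3
  by_cases hkT : k + 1 ≤ T
  · have hsub : ((Icc 1 Y).powersetCard T).filter (fun H => ∃ G ⊆ H, G.card = k + 1 ∧ A₀ < CT G) ⊆
        (Gs ×ˢ (Icc 1 Y).powersetCard (T - (k + 1))).image (fun z => z.1 ∪ z.2) := by
      intro H hH
      rw [mem_filter, mem_powersetCard] at hH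
      obtain ⟨⟨hH1, hH2⟩, G, hG1, hG2, hG3⟩ := hH
      rw [mem_image]
      refine ⟨(G, H \ G), ?_, union_sdiff_of_subset hG1⟩
      rw [mem_product, hGs, mem_filter, mem_powersetCard, mem_powersetCard]
      exact ⟨⟨⟨hG1.trans hH1, hG2⟩, hG3⟩, sdiff_subset.trans hH1, by
        rw [card_sdiff_of_subset hG1, hH2, hG2]⟩
    have h2 : (((Icc 1 Y).powersetCard T).filter (fun H => ∃ G ⊆ H, G.card = k + 1 ∧ A₀ < CT G)).card ≤
        Bt.card * Y ^ (T - (k + 1)) := by
      refine (card_le_card hsub).trans (card_image_le.trans ?_)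
      rw [card_product, card_powersetCard, Nat.card_Icc, Nat.add_sub_cancel]
      exact Nat.mul_le_mul hGc (Nat.choose_le_pow _ _)
    have h3 : ((((Icc 1 Y).powersetCard T).filter (fun H => ∃ G ⊆ H, G.card = k + 1 ∧ A₀ < CT G)).card : ℝ) ≤
        Bt.card * (Y : ℝ) ^ (T - (k + 1)) := by exact_mod_cast h2
    refine h3.trans ?_
    calc (Bt.card : ℝ) * (Y : ℝ) ^ (T - (k + 1)) ≤ δ * (Y : ℝ) ^ (k + 1) * (Y : ℝ) ^ (T - (k + 1)) :=
          mul_le_mul_of_nonneg_right h1 (by positivity)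
      _ = δ * (Y : ℝ) ^ T := by
          rw [mul_assoc, ← pow_add]
          congr 2
          omega
  · have h2 : ((Icc 1 Y).powersetCard T).filter (fun H => ∃ G ⊆ H, G.card = k + 1 ∧ A₀ < CT G) = ∅ := by
      apply filter_eq_empty_iff.2
      rintro H hH ⟨G, hG1, hG2, -⟩
      rw [mem_powersetCard] at hH
      have := card_le_card hG1
      omega
    rw [h2, card_empty, Nat.cast_zero]
    positivity

end Pool.Agent.P8H13.DS
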